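import Mathlib
import Pool.Agent.N626.Kp

/-!
# Dominant maps from tori and entire curves given by linear differential equations

Let `X` be a complex projective variety, and let `X°` be the complement of the hypersurface `Q = 0`
in `X` (`Q = 1` is allowed; then `X° = X`). We prove that `X°` is dominated by a torus (for `Q = 1`
this means that `X` is unirational) if and only if there is an entire curve `f` in `X°` whose
homogeneous coordinates satisfy linear differential equations with polynomial coefficients, and such
that the points `(z, f(z))` are Zariski-dense in the product of the affine line and `X`. In the place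
of the polynomials one can take any differential ring `B` of holomorphic functions on a connected open
set, provided that the curve is generic over `B`; and it is also equivalent that there is a
Zariski-dense entire curve in `X°` whose homogeneous coordinates satisfy linear differential
equations with constant coefficients.
-/

set_option autoImplicit false

namespace Pool.Agent.Results.MP_b9fedf_ag.TorusDominationCurves

open MvPolynomial
open Pool.Agent.TH143 (DiffRing LinOver PolODE)
open Pool.Agent.N626

variable {N : ℕ}

/-- `p` is the ideal of a variety in the projective space: a prime ideal, generated by forms, which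
does not contain all the variables. -/
structure IsVariety (p : Ideal (MvPolynomial (Fin (N + 1)) ℂ)) : Prop where
  prime : p.IsPrime
  hom : ∀ G ∈ p, ∀ D, homogeneousComponent D G ∈ p
  ne : ∃ l, (X l : MvPolynomial (Fin (N + 1)) ℂ) ∉ p

/-- The complement of `Q = 0` in the variety with the ideal `p` is dominated by the torus of
dimension `r`, for some `r`: there are polynomials `w_j` in `r` variables such that the points
`(w_0(t) : … : w_N(t))` are contained in the variety and Zariski-dense in it, and such that
`Q (w(t)) ≠ 0` for every `t` with nonzero coordinates. For `Q = 1` this says that the variety is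
unirational. -/
def TorusDominated (p : Ideal (MvPolynomial (Fin (N + 1)) ℂ)) (Q : MvPolynomial (Fin (N + 1)) ℂ) :
    Prop :=
  ∃ (r : ℕ) (w : Fin (N + 1) → MvPolynomial (Fin r) ℂ), (∀ G ∈ p, aeval w G = 0) ∧
    (∀ G : MvPolynomial (Fin (N + 1)) ℂ, (∃ e, G.IsHomogeneous e) → aeval w G = 0 → G ∈ p) ∧
    ∀ t : Fin r → ℂ, (∀ k, t k ≠ 0) → eval t (aeval w Q) ≠ 0

/-- `f` is an entire curve in the complement of `Q = 0` in the variety with the ideal `p`, given by
its homogeneous coordinates. (If `Q` is a constant, then the coordinates may have common zeros; `f`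
extends to them, if it is not zero everywhere.) -/
structure Curve (p : Ideal (MvPolynomial (Fin (N + 1)) ℂ)) (Q : MvPolynomial (Fin (N + 1)) ℂ)
    (f : ℂ → Fin (N + 1) → ℂ) : Prop where
  diff : ∀ j, Differentiable ℂ fun z => f z j
  on : ∀ G ∈ p, ∀ z, eval (f z) G = 0
  off : ∀ z, eval (f z) Q ≠ 0

/-- `f` is an entire curve in the complement of `Q = 0` in the variety with the ideal `p` whose
homogeneous coordinates satisfy nontrivial linear differential equations with constant coefficients,
and it is Zariski-dense in the variety. -/
structure ConstCurve (p : Ideal (MvPolynomial (Fin (N + 1)) ℂ)) (Q : MvPolynomial (Fin (N + 1)) ℂ)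
    (f : ℂ → Fin (N + 1) → ℂ) : Prop extends Curve p Q f where
  ode : ∀ j, ConstODE fun z => f z j
  dense : ∀ G : MvPolynomial (Fin (N + 1)) ℂ, (∃ e, G.IsHomogeneous e) →
    (∀ z, eval (f z) G = 0) → G ∈ p

/-- `f` is an entire curve in the complement of `Q = 0` in the variety with the ideal `p` whose
homogeneous coordinates satisfy nontrivial linear differential equations with polynomial coefficients,
and the points `(z, f z)` are Zariski-dense in the product of the affine line and the variety. -/
structure PolCurve (p : Ideal (MvPolynomial (Fin (N + 1)) ℂ)) (Q : MvPolynomial (Fin (N + 1)) ℂ)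
    (f : ℂ → Fin (N + 1) → ℂ) : Prop extends Curve p Q f where
  ode : ∀ j, PolODE fun z => f z j
  dense : GraphDense p f

/-- `B` is a ring of holomorphic functions on the connected open set `Ω`, closed under
differentiation; `f` is a holomorphic curve on `Ω` in the variety with the ideal `p`, given by
homogeneous coordinates which satisfy nontrivial linear differential equations with coefficients in
`B`; the curve is not contained in `Q = 0`, and the logarithmic derivative of `Q (f)` is a quotient of
elements of `B` (this condition is empty if `Q` is a constant); and the curve is generic over `B`: all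
forms with coefficients in `B` which vanish on it have values in `p`. -/
structure GenCurve (Ω : Set ℂ) (B : Subalgebra ℂ (ℂ → ℂ))
    (p : Ideal (MvPolynomial (Fin (N + 1)) ℂ)) (Q : MvPolynomial (Fin (N + 1)) ℂ)
    (f : ℂ → Fin (N + 1) → ℂ) : Prop where
  isOpen : IsOpen Ω
  conn : IsPreconnected Ω
  ring : DiffRing Ω B
  an : ∀ j, AnalyticOnNhd ℂ (fun z => f z j) Ω
  on : ∀ G ∈ p, ∀ z ∈ Ω, eval (f z) G = 0
  off : ∃ z ∈ Ω, eval (f z) Q ≠ 0
  ode : ∀ j, LinOver Ω B fun z => f z j
  bd : ∃ b ∈ B, ∃ c ∈ B, (∃ z ∈ Ω, b z ≠ 0) ∧
    ∀ z ∈ Ω, b z * deriv (fun w => eval (f w) Q) z = c z * eval (f z) Q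
  gen : GenOver Ω B p f

/-- Let `p` be the ideal of a variety in the complex projective space, and let `Q` be a form. The
following conditions are equivalent.

(1) The complement of `Q = 0` in the variety is dominated by a torus; for `Q = 1` this means that the
variety is unirational.

(2) There is a Zariski-dense entire curve in the complement given by linear differential equations
with constant coefficients.

(3) There is an entire curve `f` in the complement given by linear differential equations with
polynomial coefficients such that the points `(z, f z)` are Zariski-dense in the product of the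
affine line and the variety.

(4) For some ring `B` of holomorphic functions on a connected open set, closed under differentiation,
there is a holomorphic curve in the variety, not contained in `Q = 0`, which is given by linear
differential equations over `B` and is generic over `B`, and for which the logarithmic derivative of
`Q` is a quotient of elements of `B`. -/
theorem result (p : Ideal (MvPolynomial (Fin (N + 1)) ℂ)) (hp : IsVariety p)
    (Q : MvPolynomial (Fin (N + 1)) ℂ) {q : ℕ} (hQ : Q.IsHomogeneous q) :
    List.TFAE [TorusDominated p Q,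
      ∃ f, ConstCurve p Q f,
      ∃ f, PolCurve p Q f,
      ∃ (Ω : Set ℂ) (B : Subalgebra ℂ (ℂ → ℂ)) (f : ℂ → Fin (N + 1) → ℂ), GenCurve Ω B p Q f] := by
  obtain ⟨l, hl⟩ := hp.ne
  tfae_have 1 → 2 := by
    rintro ⟨r, w, h1, h2, h3⟩
    obtain ⟨f, e1, e2, e3, e4, e5⟩ := exists_ent h1 h2 h3
    refine ⟨f, ⟨e1, e2, e3⟩, e4, fun G ⟨D, hG⟩ hz => ?_⟩
    exact e5 D 1 (fun _ => G) (fun _ => hG) (fun z => by
      rw [Finset.sum_range_one, hz z, mul_zero]) 0 one_pos
  tfae_have 1 → 3 := by
    rintro ⟨r, w, h1, h2, h3⟩
    obtain ⟨f, e1, e2, e3, e4, e5⟩ := exists_ent h1 h2 h3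
    exact ⟨f, ⟨e1, e2, e3⟩, fun j => (e4 j).polODE, e5⟩
  tfae_have 2 → 4 := by
    rintro ⟨f, hf⟩
    obtain ⟨c, hc⟩ := log_const hf.diff hf.ode hf.off
    exact ⟨Set.univ, ⊥, f, isOpen_univ, isPreconnected_univ, bot_diff,
      fun j z _ => (hf.diff j).analyticAt z, fun G hG z _ => hf.on G hG z,
      ⟨0, Set.mem_univ _, hf.off 0⟩, fun j => (hf.ode j).linOver,
      ⟨fun _ => 1, bot_mem.2 ⟨1, fun _ => rfl⟩, fun _ => c, bot_mem.2 ⟨c, fun _ => rfl⟩,
        ⟨0, Set.mem_univ _, one_ne_zero⟩, fun z _ => by rw [one_mul, hc z]⟩, gen_bot hf.dense⟩
  tfae_have 3 → 4 := by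
    rintro ⟨f, hf⟩
    obtain ⟨P, hP⟩ := log_pol hf.diff hf.ode hf.off
    exact ⟨Set.univ, polB, f, isOpen_univ, isPreconnected_univ, polB_diff,
      fun j z _ => (hf.diff j).analyticAt z, fun G hG z _ => hf.on G hG z,
      ⟨0, Set.mem_univ _, hf.off 0⟩, fun j => PolODE.linOver (hf.ode j),
      ⟨fun _ => 1, ⟨1, fun _ => by rw [Polynomial.eval_one]⟩, fun z => P.eval z,
        ⟨P, fun _ => rfl⟩, ⟨0, Set.mem_univ _, one_ne_zero⟩, fun z _ => by rw [one_mul, hP z]⟩,
      gen_pol hf.dense⟩
  tfae_have 4 → 1 := by
    rintro ⟨Ω, B, f, hf⟩
    obtain ⟨b, hb, c, hc, hb0, hbc⟩ := hf.bd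
    obtain ⟨r, w, h1, h2, h3⟩ := torus_gen hf.isOpen hf.conn hf.ring f hf.an hf.ode hp.prime hl
      hf.on hf.gen hQ hf.off hb hc hb0 hbc
    exact ⟨r, w, fun G hG => on_comp hp.hom h1 hG, h2, h3⟩
  tfae_finish

end Pool.Agent.Results.MP_b9fedf_ag.TorusDominationCurves
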